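import Pool.Agent.H54.RV.Main
import Pool.Agent.H20.FV.Weyl
import Pool.Agent.H83.DC.Real

/-!
# [H39 TP Qp] THEOREM P (MP_e49dc9_ag), part 2: a rational polyhedral nef cone

`q1_poly`: if the nef cone is defined by finitely many integral functionals and the integral nef classes are effective
then the nef cone is generated by finitely many integral classes, all nef classes are effective, and Q1 holds.
-/

set_option autoImplicit false

namespace Pool.Agent.H39.TP

open AlgebraicGeometry Pool.Agent.H57.KM Pool.Agent.H54.RV Pool.Agent.H20.FV Pool.Agent.H83.DC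

section gen

variable {k K : Type} [Field k] [Field K] [Algebra k K] [IsAlgClosed k] [CharZero k] {X : Mod k K}

/-- the classes in the cone generated by finitely many integral classes -/
theorem rat_poly (hX : IsVar X) [FiniteDimensional ℝ (N1 X)] {n : ℕ} (b : LatB X n) (T : Finset (Fin n → ℤ))
    (hT : closure (ampR b) = cone T) : RatPolyC (NefC X) := by
  classical
  choose D hD using fun t : Fin n → ℤ => pt_int hX b t
  obtain ⟨e⟩ : Nonempty (Fin T.card ≃ T) := ⟨T.equivFin.symm⟩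
  refine ⟨T.card, fun i => D (e i), ?_⟩
  have hT' : T = Finset.univ.image fun i => ((e i : T) : Fin n → ℤ) := by
    ext t
    simp only [Finset.mem_image, Finset.mem_univ, true_and]
    exact ⟨fun ht => ⟨e.symm ⟨t, ht⟩, by rw [Equiv.apply_symm_apply]⟩, fun ⟨i, hi⟩ => hi ▸ (e i).2⟩
  ext v
  obtain ⟨x, rfl⟩ := (pt_bij hX b).2 v
  rw [← cl_ampR hX b, hT]
  have h1 := cone_fam (fun i => ((e i : T) : Fin n → ℤ)) x
  rw [← hT'] at h1
  rw [h1]
  constructor
  · rintro ⟨c, hc, rfl⟩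
    refine ⟨c, hc, ?_⟩
    rw [pt_sum]
    exact Finset.sum_congr rfl fun i _ => by rw [pt_smul, hD, pt_toR]
  · rintro ⟨c, hc, h2⟩
    refine ⟨c, hc, (pt_bij hX b).1 ?_⟩
    rw [h2, pt_sum]
    exact Finset.sum_congr rfl fun i _ => by rw [pt_smul, hD, pt_toR]

theorem effC_sum {m : ℕ} (c : Fin m → ℝ) (hc : ∀ i, 0 ≤ c i) (v : Fin m → N1 X) (hv : ∀ i, v i ∈ EffC X) :
    ∑ i, c i • v i ∈ EffC X := by
  have h0 : (0 : N1 X) ∈ EffC X := ⟨0, Fin.elim0, Fin.elim0, fun i => i.elim0, fun i => i.elim0, by simp⟩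
  have key : ∀ s : Finset (Fin m), ∑ i ∈ s, c i • v i ∈ EffC X := by
    intro s
    induction s using Finset.induction_on with
    | empty => rw [Finset.sum_empty]; exact h0
    | insert i s hi ih =>
      rw [Finset.sum_insert hi]
      exact effC_add _ _ (effC_smul _ (hc i) _ (hv i)) ih
  exact key _

theorem gen_mem {m : ℕ} {D : Fin m → Cart X}
    (hD : NefC X = {v | ∃ c : Fin m → ℝ, (∀ i, 0 ≤ c i) ∧ v = ∑ i, c i • cl (D i)}) (i : Fin m) : cl (D i) ∈ NefC X := by
  rw [hD]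
  refine ⟨Pi.single i 1, fun j => ?_, ?_⟩
  · by_cases hij : j = i
    · subst hij
      rw [Pi.single_eq_same]
      exact zero_le_one
    · rw [Pi.single_eq_of_ne hij]
  · rw [Finset.sum_eq_single i]
    · rw [Pi.single_eq_same, one_smul]
    · intro j _ hj
      rw [Pi.single_eq_of_ne hj, zero_smul]
    · intro hi
      exact absurd (Finset.mem_univ i) hi

theorem nef_eff (hP : RatPolyC (NefC X)) (hN : NE X) : NefC X ⊆ EffC X := by
  obtain ⟨m, D, hD⟩ := hP
  intro v hv
  rw [hD] at hv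
  obtain ⟨c, hc, rfl⟩ := hv
  exact effC_sum c hc _ fun i => hN _ (gen_mem hD i)

theorem nef_plus (hX : IsVar X) (hA : ∃ D : Cart X, Ample D) (hP : RatPolyC (NefC X)) : NefC X ⊆ NefP X := by
  obtain ⟨m, D, hD⟩ := hP
  intro v hv
  rw [hD] at hv
  obtain ⟨c, hc, rfl⟩ := hv
  exact np_sum hX hA c _ hc fun i _ => subset_convexHull ℝ _ ⟨gen_mem hD i, ratC_cl (D i)⟩

end gen

/-- **part 2** -/
theorem q1_poly {Y : Scheme.{0}} [IsIntegral Y] (f : Y ⟶ Spec (.of ℂ)) [IsProper f]
    (hA : ∃ D : Cart (mdl f), Ample D) {n : ℕ} (b : LatB (mdl f) n) (F : Finset (Fin n → ℤ))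
    (hF : closure (ampR b) = {x | ∀ φ ∈ F, 0 ≤ toR φ ⬝ᵥ x}) (hE : NE (mdl f)) :
    RatPolyC (NefC (mdl f)) ∧ NefC (mdl f) ⊆ EffC (mdl f) ∧ Q1Y f := by
  have hX := isVar_mdl f
  have := fd_of_basis hX b
  obtain ⟨T, hT⟩ := weyl F
  rw [← hF] at hT
  have hP := rat_poly hX b T hT
  have hG : Pres (autR f b) (ampR b) := by
    have h1 := pres_ampR (autG f) b
    unfold autR
    rwa [autS_eq, grp_eq]
  have hC : Cov (ampR b) (autR f b) := by
    refine ⟨T, fun s hs => ?_, fun x hx => ?_⟩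
    · rw [hT]
      exact toR_mem_cone hs
    · refine Set.mem_iUnion₂.2 ⟨1, Subgroup.one_mem _, ?_⟩
      have h2 : x ∈ cone T := by
        rw [← hT]
        exact subset_closure hx
      refine ⟨x, h2, ?_⟩
      unfold act
      rw [Units.val_one, Matrix.map_one _ Int.cast_zero Int.cast_one, Matrix.one_mulVec]
  have hV := (cov_iff_vol (isAmp_ampR hX hA b) hG).1 hC
  exact ⟨hP, nef_eff hP hE, (mainY f hA b).1.2 ⟨Set.inter_subset_left.trans (nef_plus hX hA hP), hE, hV⟩⟩

end Pool.Agent.H39.TP
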