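import Mathlib

/-!
# Complements of components

`compl_comp`: a component of an open set with connected complement has connected complement.
`compl_union`: adding a connected set which meets the complement.
-/

set_option autoImplicit false

open Filter Topology Metric Set

namespace Pool.Agent.H39.TP

/-- frontiers of components of open sets lie in the complement -/
theorem front_comp {U : Set ℂ} (hU : IsOpen U) (x : ℂ) : frontier (connectedComponentIn U x) ⊆ Uᶜ := by
  intro z hz hzU
  have hWo : IsOpen (connectedComponentIn U x) := hU.connectedComponentIn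
  rw [hWo.frontier_eq] at hz
  have hVo : IsOpen (connectedComponentIn U z) := hU.connectedComponentIn
  obtain ⟨w, hw1, hw2⟩ := mem_closure_iff.1 hz.1 _ hVo (mem_connectedComponentIn hzU)
  have h1 : connectedComponentIn U z = connectedComponentIn U w := connectedComponentIn_eq hw1
  have h2 : connectedComponentIn U x = connectedComponentIn U w := connectedComponentIn_eq hw2
  exact hz.2 (h2.trans h1.symm ▸ mem_connectedComponentIn hzU)

/-- a component of an open set with connected complement has connected complement -/
theorem compl_comp {U : Set ℂ} (hU : IsOpen U) (hc : IsPreconnected Uᶜ) (x : ℂ) :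
    IsPreconnected (connectedComponentIn U x)ᶜ := by
  rcases eq_empty_or_nonempty Uᶜ with h0 | ⟨z0, hz0⟩
  · rw [compl_empty_iff] at h0
    subst h0
    rw [connectedComponentIn_univ, PreconnectedSpace.connectedComponent_eq_univ, compl_univ]
    exact isPreconnected_empty
  have key : ∀ y ∈ U, IsPreconnected (connectedComponentIn U y ∪ Uᶜ) := by
    intro y hy
    obtain ⟨V, hV⟩ : ∃ V, V = connectedComponentIn U y := ⟨_, rfl⟩
    have hVn : V.Nonempty := hV ▸ ⟨y, mem_connectedComponentIn hy⟩
    have hVu : V ≠ univ := by
      intro h
      exact hz0 (connectedComponentIn_subset U y (hV ▸ h ▸ mem_univ z0))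
    have hfr : (frontier V).Nonempty := nonempty_frontier_iff.2 ⟨hVn, hVu⟩
    have hfU : frontier V ⊆ Uᶜ := hV ▸ front_comp hU y
    rw [← hV]
    have h1 : IsPreconnected (V ∪ frontier V) := by
      refine (hV ▸ isPreconnected_connectedComponentIn : IsPreconnected V).subset_closure subset_union_left ?_
      exact union_subset subset_closure frontier_subset_closure
    obtain ⟨w, hw⟩ := hfr
    have h2 : V ∪ Uᶜ = (V ∪ frontier V) ∪ Uᶜ := by
      rw [union_assoc, union_eq_self_of_subset_left hfU]
    rw [h2]
    exact h1.union w (Or.inr hw) (hfU hw) hc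
  have h3 : (connectedComponentIn U x)ᶜ = ⋃₀ ({Uᶜ} ∪ {S | ∃ y ∈ U, y ∉ connectedComponentIn U x ∧ S = connectedComponentIn U y ∪ Uᶜ}) := by
    ext w
    constructor
    · intro hw
      by_cases hwU : w ∈ U
      · exact ⟨_, Or.inr ⟨w, hwU, hw, rfl⟩, Or.inl (mem_connectedComponentIn hwU)⟩
      · exact ⟨Uᶜ, Or.inl rfl, hwU⟩
    · rintro ⟨S, hS | ⟨y, hy, hyx, rfl⟩, hw⟩
      · rw [hS] at hw
        exact fun h => hw (connectedComponentIn_subset U x h)
      · rcases hw with hw | hw
        · intro h
          have e1 : connectedComponentIn U y = connectedComponentIn U w := connectedComponentIn_eq hw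
          have e2 : connectedComponentIn U x = connectedComponentIn U w := connectedComponentIn_eq h
          exact hyx (e2.trans e1.symm ▸ mem_connectedComponentIn hy)
        · exact fun h => hw (connectedComponentIn_subset U x h)
  rw [h3]
  refine isPreconnected_sUnion z0 _ ?_ ?_
  · rintro S (hS | ⟨y, -, -, rfl⟩)
    · rw [hS]
      exact hz0
    · exact Or.inr hz0
  · rintro S (hS | ⟨y, hy, -, rfl⟩)
    · rw [hS]
      exact hc
    · exact key y hy

/-- removing a connected set which meets the complement -/
theorem compl_diff {U A : Set ℂ} (hc : IsPreconnected Uᶜ) (hA : IsPreconnected A) {z : ℂ} (hz : z ∈ A) (hzU : z ∉ U) :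
    IsPreconnected (U \ A)ᶜ := by
  rw [compl_sdiff]
  exact hA.union z hz hzU hc

end Pool.Agent.H39.TP
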