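import Pool.Agent.H66.GEO.YS

/-!
# GEO, module TP: the topology of `W`

`A` is a compact connected set off `Q` in a full set `N` off `Q`, not inside `Ys s`. `W` = component of `0` in `Ys s \ A`.
`W` is full, so it has a Riemann map; its frontier is off `Q`, so the Riemann map is off `Q` near the circle. The frontier of `W`
is not inside `A` (otherwise `W ⊆ N`, but `0 ∈ Q`), so `W` reaches the curve `ψ s {re t = log r / 2 ^ s}` off `A`.
-/

set_option autoImplicit false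

open Filter Topology Metric Set

namespace Pool.Agent.H39.TP

open Pool.Agent.H56.TH (Full)
open Pool.Agent.H66.GEO
open Pool.Agent.H81.RW (img_full full_diff full_comp comp_frontier)

variable {Q : Set ℂ} {Lf : Set ℂ → (ℂ → ℂ) → (ℂ → ℂ) → Prop} {th r : ℝ} {φ F : ℕ → ℂ → ℂ} {ω α : ℕ → ℂ}

/-- the topology of `W` -/
theorem tp (h : LS Q Lf) (hX : XS Q Lf th r φ F ω α) {ψ : ℕ → ℂ → ℂ} (hP : PS th φ F ω α ψ) (s : ℕ) {A N : Set ℂ}
    (hA : IsCompact A) (hAc : IsPreconnected A) (hAN : A ⊆ N) (hN : Full N) (hNQ : Disjoint N Q) {a : ℂ} (haA : a ∈ A)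
    (haX : a ∉ Ys φ ω α r s) :
    ∃ (W : Set ℂ) (φW : ℂ → ℂ) (d : ℝ), 0 < d ∧ d < 1 ∧ W = connectedComponentIn (Ys φ ω α r s \ A) 0 ∧ (0 : ℂ) ∈ W ∧
      DifferentiableOn ℂ φW (ball 0 1) ∧ InjOn φW (ball 0 1) ∧ φW '' ball 0 1 = W ∧ Bornology.IsBounded W ∧
      (∀ x ∈ ball (0 : ℂ) 1, 1 - d < ‖x‖ → φW x ∉ Q) ∧
      ∃ t ∈ Ss th s, t.re = Real.log r / 2 ^ s ∧ ψ s t ∉ A ∧ ∃ ε : ℝ, 0 < ε ∧ ball t ε ⊆ Ss th s ∧
        ∀ t' ∈ ball t ε, t'.re < Real.log r / 2 ^ s → ψ s t' ∈ W := by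
  have hUo : IsOpen (Ys φ ω α r s \ A) := (ys_open hX s).sdiff hA.isClosed
  obtain ⟨W, hW⟩ : ∃ W, W = connectedComponentIn (Ys φ ω α r s \ A) 0 := ⟨_, rfl⟩
  have h0A : (0 : ℂ) ∉ A := fun h1 => Set.disjoint_left.1 hNQ (hAN h1) h.Q0
  have h0U : (0 : ℂ) ∈ Ys φ ω α r s \ A := ⟨ys_zero hX s, h0A⟩
  have h0W : (0 : ℂ) ∈ W := hW ▸ mem_connectedComponentIn h0U
  have hWo : IsOpen W := hW ▸ hUo.connectedComponentIn
  have hWc : IsPreconnected W := hW ▸ isPreconnected_connectedComponentIn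
  have hWU : W ⊆ Ys φ ω α r s \ A := hW ▸ connectedComponentIn_subset _ _
  have hWb : Bornology.IsBounded W := (ys_bdd hX s).subset fun x hx => (hWU hx).1
  have hWF : Full W := by
    rw [hW]
    refine full_comp ?_ 0
    have h1 := full_diff (ys_full hX s) hAc (fun h2 => haX (h2 (subset_closure haA)))
    rwa [hA.isClosed.closure_eq] at h1
  have hfrU : ∀ w ∈ frontier W, w ∉ Ys φ ω α r s \ A := by
    intro w hw
    have h1 := comp_frontier hUo 0 (hW ▸ hw)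
    rw [hUo.frontier_eq] at h1
    exact h1.2
  have hclX : closure W ⊆ closure (Ys φ ω α r s) := closure_mono fun x hx => (hWU hx).1
  have hfrQ : ∀ w ∈ frontier W, w ∉ Q := by
    intro w hw hwQ
    have h1 := hfrU w hw
    by_cases hwA : w ∈ A
    · exact Set.disjoint_left.1 hNQ (hAN hwA) hwQ
    · have hwX : w ∉ Ys φ ω α r s := fun h2 => h1 ⟨h2, hwA⟩
      exact (ys_bd_pt hX hP (hclX (frontier_subset_closure hw)) hwX).1 hwQ
  obtain ⟨φW, g, hφ, hg, hφW, hgW, hgφ, hφg, hφ0⟩ := riem_full hWo hWc hWb hWF h0W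
  have hinj : InjOn φW (ball 0 1) := fun x hx y hy hxy => by rw [← hgφ x hx, ← hgφ y hy, hxy]
  have himg : φW '' ball 0 1 = W := by
    refine Subset.antisymm (image_subset_iff.2 hφW) ?_
    intro w hw
    exact ⟨g w, hgW hw, hφg w hw⟩
  -- the collar
  have hCk : IsCompact (Q ∩ closure W) :=
    (Metric.isCompact_of_isClosed_isBounded isClosed_closure hWb.closure).inter_left h.Qc
  have hCW : Q ∩ closure W ⊆ W := by
    rintro w ⟨hwQ, hwc⟩
    by_contra hwW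
    refine hfrQ w ?_ hwQ
    rw [hWo.frontier_eq]
    exact ⟨hwc, hwW⟩
  have hgK : IsCompact (g '' (Q ∩ closure W)) := hCk.image_of_continuousOn (hg.continuousOn.mono hCW)
  have hgb : g '' (Q ∩ closure W) ⊆ ball 0 1 := by
    rintro _ ⟨w, hw, rfl⟩
    exact hgW (hCW hw)
  obtain ⟨ρ, hρ0, hρ1, hρ⟩ : ∃ ρ : ℝ, 0 < ρ ∧ ρ < 1 ∧ g '' (Q ∩ closure W) ⊆ closedBall 0 ρ := by
    have hne : (g '' (Q ∩ closure W)).Nonempty := ⟨g 0, 0, ⟨h.Q0, subset_closure h0W⟩, rfl⟩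
    obtain ⟨x, hx, hmax⟩ := hgK.exists_isMaxOn hne continuous_norm.continuousOn
    refine ⟨max ‖x‖ (1 / 2), lt_max_of_lt_right (by norm_num), max_lt (mem_ball_zero_iff.1 (hgb hx)) (by norm_num), ?_⟩
    intro y hy
    rw [mem_closedBall_zero_iff]
    exact (hmax hy).trans (le_max_left _ _)
  have hcol : ∀ x ∈ ball (0 : ℂ) 1, 1 - (1 - ρ) < ‖x‖ → φW x ∉ Q := by
    intro x hx hx1 hxQ
    have h1 : x ∈ g '' (Q ∩ closure W) := ⟨φW x, ⟨hxQ, subset_closure (hφW hx)⟩, hgφ x hx⟩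
    have h2 := mem_closedBall_zero_iff.1 (hρ h1)
    linarith
  -- the point on the curve
  obtain ⟨w, hw, hwA⟩ : ∃ w ∈ frontier W, w ∉ A := by
    by_contra hcon
    push Not at hcon
    exact Set.disjoint_left.1 hNQ (hN W hWo hWb (fun w hw => hAN (hcon w hw)) h0W) h.Q0
  have hwX : w ∉ Ys φ ω α r s := fun h2 => hfrU w hw ⟨h2, hwA⟩
  obtain ⟨-, t, ht, htr, rfl⟩ := ys_bd_pt hX hP (hclX (frontier_subset_closure hw)) hwX
  have hSo : IsOpen (Ss th s) := st_open _ _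
  have hpc : ContinuousAt (ψ s) t := (hP.dif s).continuousOn.continuousAt (hSo.mem_nhds ht)
  have hev : ∀ᶠ t' in 𝓝 t, t' ∈ Ss th s ∧ ψ s t' ∉ A :=
    (hSo.eventually_mem ht).and (hpc.eventually (hA.isClosed.isOpen_compl.eventually_mem hwA))
  obtain ⟨ε, hε, hεS⟩ := Metric.eventually_nhds_iff_ball.1 hev
  refine ⟨W, φW, 1 - ρ, by linarith, by linarith, hW, h0W, hφ, hinj, himg, hWb, hcol, t, ht, htr, hwA, ε, hε,
    fun t' ht' => (hεS t' ht').1, ?_⟩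
  have hstrict : HasStrictDerivAt (ψ s) (deriv (ψ s) t) t :=
    ((hP.dif s).analyticAt (hSo.mem_nhds ht)).hasStrictDerivAt
  have hmap := hstrict.map_nhds_eq (hP.der s t ht)
  have hnb : ψ s '' ball t ε ∈ 𝓝 (ψ s t) := by
    rw [← hmap]
    exact image_mem_map (ball_mem_nhds t hε)
  have hwcl : ψ s t ∈ closure W := frontier_subset_closure hw
  obtain ⟨_, ⟨t1, ht1, rfl⟩, hw1⟩ := mem_closure_iff_nhds.1 hwcl _ hnb
  have ht1r : t1.re < Real.log r / 2 ^ s := (ys_mem hX hP (hεS t1 ht1).1).1 (hWU hw1).1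
  have hEc : Convex ℝ (ball t ε ∩ {z : ℂ | z.re < Real.log r / 2 ^ s}) :=
    (convex_ball t ε).inter (convex_halfSpace_re_lt _)
  have hEp : IsPreconnected (ψ s '' (ball t ε ∩ {z : ℂ | z.re < Real.log r / 2 ^ s})) :=
    hEc.isPreconnected.image _ ((hP.dif s).continuousOn.mono fun z hz => (hεS z hz.1).1)
  have hEU : ψ s '' (ball t ε ∩ {z : ℂ | z.re < Real.log r / 2 ^ s}) ⊆ Ys φ ω α r s \ A := by
    rintro _ ⟨z, ⟨hz, hzr⟩, rfl⟩
    exact ⟨(ys_mem hX hP (hεS z hz).1).2 hzr, (hεS z hz).2⟩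
  have hEW := hEp.subset_connectedComponentIn ⟨t1, ⟨ht1, ht1r⟩, rfl⟩ hEU
  rw [hW] at hw1
  rw [← connectedComponentIn_eq hw1, ← hW] at hEW
  intro t' ht' ht'r
  exact hEW ⟨t', ⟨ht', ht'r⟩, rfl⟩

end Pool.Agent.H39.TP
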