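import Pool.Agent.H27.BR.TP
import Pool.Agent.H27.BR.DXB
import Pool.Agent.H27.BR.RE
import Pool.Agent.H56.TH.Defs

/-!
# Riemann maps of full domains

`compl_of_full`: bounded open full sets have connected complement. `riem_full`: the Riemann map of a bounded full domain.
-/

set_option autoImplicit false

open Filter Topology Metric Set

namespace Pool.Agent.H39.TP

open Pool.Agent.H56.TH (Full)
open Pool.Agent.H27.BR (rmap sq_of SqV out_con)

/-- bounded open full sets have connected complement -/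
theorem compl_of_full {W : Set ℂ} (hW : IsOpen W) (hb : Bornology.IsBounded W) (hF : Full W) : IsPreconnected Wᶜ := by
  obtain ⟨R, hR0, hR⟩ : ∃ R : ℝ, 0 ≤ R ∧ W ⊆ closedBall 0 R := by
    obtain ⟨R, hR⟩ := hb.subset_closedBall (0 : ℂ)
    exact ⟨max R 0, le_max_right _ _, hR.trans (closedBall_subset_closedBall (le_max_left _ _))⟩
  have hE := out_con 0 R hR0
  have hEW : (closedBall (0 : ℂ) R)ᶜ ⊆ Wᶜ := compl_subset_compl.2 hR
  have key : ∀ A B : Set ℂ, IsClosed A → IsClosed B → Wᶜ ⊆ A ∪ B → Wᶜ ∩ (A ∩ B) = ∅ →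
      (closedBall (0 : ℂ) R)ᶜ ⊆ A → (Wᶜ ∩ B) = ∅ := by
    intro A B hA hB hAB hd hEA
    by_contra hne
    obtain ⟨b, hbW, hbB⟩ := nonempty_iff_ne_empty.2 hne
    obtain ⟨B', hB'⟩ : ∃ B', B' = Wᶜ ∩ B := ⟨_, rfl⟩
    have hB'c : IsClosed B' := hB' ▸ hW.isClosed_compl.inter hB
    have hB'b : B' ⊆ closedBall 0 R := by
      intro x hx
      by_contra hxR
      rw [hB'] at hx
      have h1 : x ∈ Wᶜ ∩ (A ∩ B) := ⟨hx.1, hEA hxR, hx.2⟩
      rw [hd] at h1
      exact h1
    have hB'k : IsCompact B' := (isCompact_closedBall (0 : ℂ) R).of_isClosed_subset hB'c hB'b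
    have hA' : IsClosed (Wᶜ ∩ A) := hW.isClosed_compl.inter hA
    have hdis : Disjoint B' (Wᶜ ∩ A) := by
      rw [Set.disjoint_left]
      intro x hx hx'
      rw [hB'] at hx
      have h1 : x ∈ Wᶜ ∩ (A ∩ B) := ⟨hx.1, hx'.2, hx.2⟩
      rw [hd] at h1
      exact h1
    obtain ⟨δ, hδ, hdδ⟩ := hdis.exists_thickenings hB'k hA'
    have hO : IsOpen (thickening δ B') := isOpen_thickening
    have hfr : frontier (thickening δ B') ⊆ W := by
      intro x hx
      by_contra hxW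
      rw [hO.frontier_eq] at hx
      rcases hAB hxW with h1 | h1
      · have h2 : x ∈ thickening δ (Wᶜ ∩ A) := self_subset_thickening hδ _ ⟨hxW, h1⟩
        obtain ⟨y, hy1, hy2⟩ := mem_closure_iff.1 hx.1 _ isOpen_thickening h2
        exact Set.disjoint_left.1 hdδ hy2 hy1
      · exact hx.2 (self_subset_thickening hδ _ (hB' ▸ ⟨hxW, h1⟩))
    have h3 := hF _ hO (hB'k.isBounded.thickening) hfr
    have hbB' : b ∈ B' := hB' ▸ ⟨hbW, hbB⟩
    exact hbW (h3 (self_subset_thickening hδ _ hbB'))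
  rw [isPreconnected_closed_iff]
  intro A B hA hB hAB hnA hnB
  by_contra hcon
  rw [Set.not_nonempty_iff_eq_empty] at hcon
  have h1 : (closedBall (0 : ℂ) R)ᶜ ⊆ A ∨ (closedBall (0 : ℂ) R)ᶜ ⊆ B := by
    rcases (closedBall (0 : ℂ) R)ᶜ.eq_empty_or_nonempty with h0 | ⟨e, he⟩
    · rw [h0]
      exact Or.inl (empty_subset _)
    · have h2 : (closedBall (0 : ℂ) R)ᶜ ∩ (A ∩ B) = ∅ := by
        rw [← subset_empty_iff, ← hcon]
        exact inter_subset_inter_left _ hEW
      rcases hAB (hEW he) with h3 | h3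
      · left
        intro x hx
        by_contra hxA
        have hxB : x ∈ B := (hAB (hEW hx)).resolve_left hxA
        obtain ⟨y, hy⟩ := isPreconnected_closed_iff.1 hE A B hA hB (hEW.trans hAB) ⟨e, he, h3⟩ ⟨x, hx, hxB⟩
        rw [h2] at hy
        exact hy
      · right
        intro x hx
        by_contra hxB
        have hxA : x ∈ A := (hAB (hEW hx)).resolve_right hxB
        obtain ⟨y, hy⟩ := isPreconnected_closed_iff.1 hE A B hA hB (hEW.trans hAB) ⟨x, hx, hxA⟩ ⟨e, he, h3⟩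
        rw [h2] at hy
        exact hy
  rcases h1 with h1 | h1
  · rw [key A B hA hB hAB hcon h1] at hnB
    exact hnB.ne_empty rfl
  · rw [key B A hB hA (by rwa [union_comm]) (by rwa [inter_comm B A]) h1] at hnA
    exact hnA.ne_empty rfl

/-- compact full sets have connected complement -/
theorem compl_of_full_compact {C : Set ℂ} (hC : IsCompact C) (hF : Full C) : IsPreconnected Cᶜ := by
  obtain ⟨R, hR0, hR⟩ : ∃ R : ℝ, 0 ≤ R ∧ C ⊆ closedBall 0 R := by
    obtain ⟨R, hR⟩ := hC.isBounded.subset_closedBall (0 : ℂ)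
    exact ⟨max R 0, le_max_right _ _, hR.trans (closedBall_subset_closedBall (le_max_left _ _))⟩
  have hE := out_con 0 R hR0
  have hEC : (closedBall (0 : ℂ) R)ᶜ ⊆ Cᶜ := compl_subset_compl.2 hR
  have hCo : IsOpen Cᶜ := hC.isClosed.isOpen_compl
  obtain ⟨e, he⟩ : ∃ e : ℂ, e ∈ (closedBall (0 : ℂ) R)ᶜ := by
    refine ⟨((R + 1 : ℝ) : ℂ), ?_⟩
    rw [mem_compl_iff, mem_closedBall_zero_iff, Complex.norm_real, Real.norm_of_nonneg (by linarith)]
    linarith
  refine isPreconnected_of_forall e fun z hz => ?_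
  obtain ⟨O, hO⟩ : ∃ O, O = connectedComponentIn Cᶜ z := ⟨_, rfl⟩
  have hOo : IsOpen O := hO ▸ hCo.connectedComponentIn
  have hzO : z ∈ O := hO ▸ mem_connectedComponentIn hz
  have hOC : O ⊆ Cᶜ := hO ▸ connectedComponentIn_subset _ _
  have hnb : ¬ Bornology.IsBounded O := by
    intro hb
    refine hOC hzO (hF O hOo hb ?_ hzO)
    intro w hw
    by_contra hwC
    rw [hOo.frontier_eq] at hw
    obtain ⟨y, hy1, hy2⟩ := mem_closure_iff.1 hw.1 _ hCo.connectedComponentIn (mem_connectedComponentIn hwC)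
    rw [hO] at hy2
    exact hw.2 (by rw [hO, connectedComponentIn_eq hy2, ← connectedComponentIn_eq hy1]; exact mem_connectedComponentIn hwC)
  obtain ⟨y, hyO, hyR⟩ : ∃ y ∈ O, y ∉ closedBall (0 : ℂ) R := by
    by_contra hcon
    push Not at hcon
    exact hnb (isBounded_closedBall.subset hcon)
  refine ⟨O, hOC, ?_, hzO, hO ▸ isPreconnected_connectedComponentIn⟩
  have h1 := hE.subset_connectedComponentIn (x := y) hyR hEC
  rw [hO] at hyO
  rw [hO, connectedComponentIn_eq hyO]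
  exact h1 he

/-- the Riemann map of a bounded full domain -/
theorem riem_full {W : Set ℂ} (hW : IsOpen W) (hc : IsPreconnected W) (hb : Bornology.IsBounded W) (hF : Full W) {x : ℂ}
    (hx : x ∈ W) : ∃ ψ g : ℂ → ℂ, DifferentiableOn ℂ ψ (ball 0 1) ∧ DifferentiableOn ℂ g W ∧ MapsTo ψ (ball 0 1) W ∧
      MapsTo g W (ball 0 1) ∧ (∀ u ∈ ball (0 : ℂ) 1, g (ψ u) = u) ∧ (∀ z ∈ W, ψ (g z) = z) ∧ ψ 0 = x :=
  rmap hW hc hb (fun _ hh h0 => sq_of hW hc hb (compl_of_full hW hb hF) hh h0) hx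

end Pool.Agent.H39.TP
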