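import Pool.Agent.H66.GEO.STR1
import Pool.Agent.H66.GEO.Bas
import Pool.Agent.H56.TH.TF
import Pool.Agent.H81.RW.Nlg
import Pool.Agent.H81.RW.Sub
import Pool.Agent.H39.TP.RM

/-!
# GEO, module TP, part 1: the domains `XR s`

`XR φ ω α r s = φ s {x | ‖BB s x‖ < r}`: open, full, bounded, contains `0`; its closure is in `φ s {x | ‖BB s x‖ ≤ r}`.
-/

set_option autoImplicit false

open Filter Topology Metric Set

namespace Pool.Agent.H39.TP

open Pool.Agent.H56.TH (Full)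
open Pool.Agent.H66.GEO
open Pool.Agent.H81.RW (img_full full_diff full_comp comp_frontier)

/-- the disc part -/
def DR (ω α : ℕ → ℂ) (r : ℝ) (s : ℕ) : Set ℂ := {x | x ∈ ball (0 : ℂ) 1 ∧ ‖BB ω α s x‖ < r}

/-- the domains -/
def XR (φ : ℕ → ℂ → ℂ) (ω α : ℕ → ℂ) (r : ℝ) (s : ℕ) : Set ℂ := φ s '' DR ω α r s

variable {Q : Set ℂ} {Lf : Set ℂ → (ℂ → ℂ) → (ℂ → ℂ) → Prop} {th r : ℝ} {φ F : ℕ → ℂ → ℂ} {ω α : ℕ → ℂ}

theorem dr_open (hX : XS Q Lf th r φ F ω α) (s : ℕ) : IsOpen (DR ω α r s) := by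
  have h1 : ContinuousOn (fun x => ‖BB ω α s x‖) (ball 0 1) := (bb_dif hX.hω hX.hα s).continuousOn.norm
  exact h1.isOpen_inter_preimage isOpen_ball isOpen_Iio

theorem dr_full (hX : XS Q Lf th r φ F ω α) (s : ℕ) : Full (DR ω α r s) := by
  intro O hO hb hfr
  have hOb : O ⊆ ball 0 1 := Pool.Agent.H56.TH.full_ball 0 1 O hO hb (hfr.trans fun x hx => hx.1)
  have hcl : closure O ⊆ ball (0 : ℂ) 1 := by
    rw [closure_eq_self_union_frontier]
    exact union_subset hOb (hfr.trans fun x hx => hx.1)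
  have hd := bb_dif hX.hω hX.hα s
  have hfc : IsCompact (frontier O) := by
    refine Metric.isCompact_of_isClosed_isBounded isClosed_frontier ?_
    exact hb.closure.subset frontier_subset_closure
  intro z hz
  refine ⟨hOb hz, ?_⟩
  rcases (frontier O).eq_empty_or_nonempty with h0 | hn
  · exfalso
    have h1 : O = univ := by
      rcases isClopen_iff.1 (isClopen_iff_frontier_eq_empty.2 h0) with h | h
      · rw [h] at hz
        exact absurd hz (notMem_empty z)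
      · exact h
    rw [h1] at hb
    exact NormedSpace.unbounded_univ ℝ ℂ hb
  obtain ⟨w, hw, hmax⟩ := hfc.exists_isMaxOn hn
    ((hd.continuousOn.norm).mono (hfr.trans fun x hx => hx.1))
  have h2 : ‖BB ω α s z‖ ≤ ‖BB ω α s w‖ := by
    refine Complex.norm_le_of_forall_mem_frontier_norm_le hb (f := BB ω α s) ?_ (fun y hy => hmax hy) (subset_closure hz)
    exact ⟨hd.mono hOb, hd.continuousOn.mono hcl⟩
  exact lt_of_le_of_lt h2 (hfr hw).2

theorem xr_open (hX : XS Q Lf th r φ F ω α) (s : ℕ) : IsOpen (XR φ ω α r s) := by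
  rcases ((hX.dφ s).analyticOnNhd isOpen_ball).is_constant_or_isOpen (convex_ball (0 : ℂ) 1).isPreconnected with h | h
  · exfalso
    obtain ⟨w, hw⟩ := h
    have e1 : (1 / 2 : ℂ) ∈ ball (0 : ℂ) 1 := by
      rw [mem_ball_zero_iff]
      norm_num
    have e2 : (0 : ℂ) ∈ ball (0 : ℂ) 1 := mem_ball_self one_pos
    have h3 := hX.iφ s e1 e2 ((hw _ e1).trans (hw _ e2).symm)
    norm_num at h3
  · exact h _ (fun x hx => hx.1) (dr_open hX s)

theorem xr_full (hX : XS Q Lf th r φ F ω α) (s : ℕ) : Full (XR φ ω α r s) :=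
  img_full (hX.dφ s) (hX.iφ s) (fun _ hx => hx.1) (dr_full hX s)

theorem phi_zero (hX : XS Q Lf th r φ F ω α) (s : ℕ) : φ s 0 = 0 := by
  have h1 := hX.oφ s 0 (mem_ball_self one_pos)
  rw [neg_zero] at h1
  have h2 : φ s 0 + φ s 0 = 0 := by
    nth_rewrite 1 [h1]
    exact neg_add_cancel _
  have h3 : (2 : ℂ) * φ s 0 = 0 := by rw [two_mul]; exact h2
  exact (mul_eq_zero.1 h3).resolve_left two_ne_zero

theorem xr_zero (h : LS Q Lf) (hX : XS Q Lf th r φ F ω α) (s : ℕ) : (0 : ℂ) ∈ XR φ ω α r s := by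
  refine ⟨0, ⟨mem_ball_self one_pos, ?_⟩, phi_zero hX s⟩
  by_contra h1
  rw [not_lt] at h1
  refine hX.off s 0 (mem_ball_self one_pos) (lt_of_lt_of_le hX.thr h1) ?_
  rw [phi_zero hX s]
  exact h.Q0

theorem xr_cpt (hX : XS Q Lf th r φ F ω α) (s : ℕ) :
    IsCompact (φ s '' {x | x ∈ ball (0 : ℂ) 1 ∧ ‖BB ω α s x‖ ≤ r}) := by
  obtain ⟨ρ, hρ0, hρ1, hρ⟩ := bb_near hX.hω hX.hα s hX.r1
  obtain ⟨K, hK⟩ : ∃ K : Set ℂ, K = {x | x ∈ ball (0 : ℂ) 1 ∧ ‖BB ω α s x‖ ≤ r} := ⟨_, rfl⟩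
  have hsub : closedBall (0 : ℂ) ρ ⊆ ball 0 1 := closedBall_subset_ball hρ1
  have hK2 : K = closedBall (0 : ℂ) ρ ∩ (fun x => ‖BB ω α s x‖) ⁻¹' Iic r := by
    rw [hK]
    ext x
    constructor
    · rintro ⟨hx, hx2⟩
      refine ⟨?_, hx2⟩
      rw [mem_closedBall_zero_iff]
      by_contra h1
      rw [not_le] at h1
      exact absurd (hρ x h1 (mem_ball_zero_iff.1 hx)) (not_lt.2 hx2)
    · rintro ⟨hx, hx2⟩
      exact ⟨hsub hx, hx2⟩
  have hKc : IsCompact K := by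
    rw [hK2]
    refine (isCompact_closedBall (0 : ℂ) ρ).of_isClosed_subset ?_ inter_subset_left
    exact ((bb_dif hX.hω hX.hα s).continuousOn.norm.mono hsub).preimage_isClosed_of_isClosed isClosed_closedBall isClosed_Iic
  have hKb : K ⊆ ball 0 1 := by
    rw [hK]
    exact fun x hx => hx.1
  rw [← hK]
  exact hKc.image_of_continuousOn ((hX.dφ s).continuousOn.mono hKb)

theorem xr_cl (hX : XS Q Lf th r φ F ω α) (s : ℕ) :
    closure (XR φ ω α r s) ⊆ φ s '' {x | x ∈ ball (0 : ℂ) 1 ∧ ‖BB ω α s x‖ ≤ r} :=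
  closure_minimal (image_mono fun _ hx => ⟨hx.1, hx.2.le⟩) (xr_cpt hX s).isClosed

theorem xr_bd (hX : XS Q Lf th r φ F ω α) (s : ℕ) : Bornology.IsBounded (XR φ ω α r s) :=
  (xr_cpt hX s).isBounded.subset (subset_closure.trans (xr_cl hX s))

/-- the level of `ψ s t` -/
theorem lev_eq (hX : XS Q Lf th r φ F ω α) {ψ : ℕ → ℂ → ℂ} (hP : PS th φ F ω α ψ) {s : ℕ} {t x : ℂ} (ht : t ∈ Ss th s)
    (hx : x ∈ ball (0 : ℂ) 1) (he : ψ s t = φ s x) : ‖BB ω α s x‖ = Real.exp (2 ^ s * t.re) := by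
  obtain ⟨x', hx', h1, h2⟩ := hP.lev s t ht
  have h3 : x' = x := hX.iφ s hx' hx (h2.symm.trans he)
  rw [← h3, h1, Complex.norm_exp]
  congr 1
  have h4 : ((2 : ℂ) ^ s * t) = (((2 : ℝ) ^ s : ℝ) : ℂ) * t := by push_cast; ring
  rw [h4, Complex.re_ofReal_mul]

theorem r_pos (hX : XS Q Lf th r φ F ω α) : 0 < r := hX.th0.trans hX.thr

/-- `ψ s t ∈ XR s` -/
theorem mem_xr (hX : XS Q Lf th r φ F ω α) {ψ : ℕ → ℂ → ℂ} (hP : PS th φ F ω α ψ) {s : ℕ} {t : ℂ} (ht : t ∈ Ss th s) :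
    ψ s t ∈ XR φ ω α r s ↔ t.re < Real.log r / 2 ^ s := by
  have hr := r_pos hX
  have h2 : (0 : ℝ) < 2 ^ s := by positivity
  obtain ⟨x', hx', h1, h3⟩ := hP.lev s t ht
  have h4 := lev_eq hX hP ht hx' h3
  have h5 : ‖BB ω α s x'‖ < r ↔ t.re < Real.log r / 2 ^ s := by
    rw [h4, lt_div_iff₀ h2, mul_comm, ← Real.lt_log_iff_exp_lt hr]
  rw [← h5]
  constructor
  · rintro ⟨x, ⟨hx, hxr⟩, he⟩
    have h6 : x = x' := hX.iφ s hx hx' (he.trans h3)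
    rw [← h6]
    exact hxr
  · intro h
    exact ⟨x', ⟨hx', h⟩, h3.symm⟩

/-- frontier points of `XR s` are on the curve -/
theorem fr_xr (hX : XS Q Lf th r φ F ω α) {ψ : ℕ → ℂ → ℂ} (hP : PS th φ F ω α ψ) {s : ℕ} {w : ℂ}
    (hw : w ∈ closure (XR φ ω α r s)) (hw' : w ∉ XR φ ω α r s) :
    w ∉ Q ∧ ∃ t ∈ Ss th s, t.re = Real.log r / 2 ^ s ∧ ψ s t = w := by
  have hr := r_pos hX
  obtain ⟨x, ⟨hx, hxr⟩, rfl⟩ := xr_cl hX s hw
  have h1 : ‖BB ω α s x‖ = r := by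
    refine le_antisymm hxr ?_
    by_contra h2
    exact hw' ⟨x, ⟨hx, not_le.1 h2⟩, rfl⟩
  have h2 : th < ‖BB ω α s x‖ := h1 ▸ hX.thr
  refine ⟨hX.off s x hx h2, ?_⟩
  obtain ⟨t, ht, hte⟩ := hP.sur s x hx h2
  refine ⟨t, ht, ?_, hte⟩
  have h3 := lev_eq hX hP ht hx hte
  rw [h1] at h3
  have h4 : Real.log r = 2 ^ s * t.re := by rw [h3, Real.log_exp]
  rw [h4]
  field_simp

end Pool.Agent.H39.TP
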